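import Pool.Agent.helper91.RB.Spec1

/-!
# Row rb:CLS: the sum over the classes
-/

set_option autoImplicit false

namespace Pool.Agent.RB

open NumberField NumberField.InfinitePlace NumberField.Units NumberField.Units.dirichletUnitTheorem
open MeasureTheory Filter Topology Module
open scoped nonZeroDivisors Real Classical

theorem CLS_mem (K : Type) [Field K] [NumberField K] (J : (FI K)ˣ) (I : (Ideal (𝓞 K))⁰) :
    (I : Ideal (𝓞 K)) ∈ IJ K (J : FI K) ↔ ClassGroup.mk0 I * ClassGroup.mk K J = 1 := by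
  rw [← ClassGroup.mk_mk0 K I, ← map_mul, ClassGroup.mk_eq_one_iff, FractionalIdeal.isPrincipal_iff]
  constructor
  · rintro ⟨_, x, hx, h⟩
    exact ⟨x, h⟩
  · rintro ⟨x, h⟩
    refine ⟨nonZeroDivisors.coe_ne_zero I, x, ?_, h⟩
    rintro rfl
    rw [FractionalIdeal.spanSingleton_zero] at h
    exact Units.ne_zero _ h

theorem CLS_sum (hDZS : DZS_stmt) (K : Type) [Field K] [NumberField K]
    (R : ClassGroup (𝓞 K) → (FI K)ˣ)
    (hb : Function.Bijective (fun C => ClassGroup.mk K (R C))) (s : ℂ) (hs : 1 < s.re) :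
    (∑ C, ∑' I : IJ K (R C : FI K), ((Ideal.absNorm (I : Ideal (𝓞 K)) : ℕ) : ℂ) ^ (-s)) =
      dedekindZeta K s := by
  obtain ⟨hsum, hval⟩ := hDZS K s hs
  set f : {I : Ideal (𝓞 K) // I ≠ ⊥} → ℂ :=
    fun I => ((Ideal.absNorm (I : Ideal (𝓞 K)) : ℕ) : ℂ) ^ (-s) with hf
  set F : {I : Ideal (𝓞 K) // I ≠ ⊥} → ClassGroup (𝓞 K) :=
    fun I => ClassGroup.mk0 ⟨I, mem_nonZeroDivisors_of_ne_zero I.2⟩ with hF
  set σ : ClassGroup (𝓞 K) ≃ ClassGroup (𝓞 K) := (Equiv.ofBijective _ hb).trans (Equiv.inv _)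
    with hσ
  have hσ' : ∀ C, σ C = (ClassGroup.mk K (R C))⁻¹ := fun C => rfl
  have hkey : ∀ C, ∑' I : IJ K (R C : FI K), ((Ideal.absNorm (I : Ideal (𝓞 K)) : ℕ) : ℂ) ^ (-s) =
      ∑' a : {a : {I : Ideal (𝓞 K) // I ≠ ⊥} // F a = σ C}, f a := by
    intro C
    have hiff : ∀ a : {I : Ideal (𝓞 K) // I ≠ ⊥}, F a = σ C ↔ (a : Ideal (𝓞 K)) ∈ IJ K (R C : FI K) := by
      intro a
      rw [hσ', eq_inv_iff_mul_eq_one]
      exact (CLS_mem K (R C) ⟨a, mem_nonZeroDivisors_of_ne_zero a.2⟩).symm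
    let e : {a : {I : Ideal (𝓞 K) // I ≠ ⊥} // F a = σ C} ≃ IJ K (R C : FI K) :=
      { toFun := fun a => ⟨(a : {I : Ideal (𝓞 K) // I ≠ ⊥}), (hiff _).1 a.2⟩
        invFun := fun I => ⟨⟨I, I.2.1⟩, (hiff _).2 I.2⟩
        left_inv := fun a => rfl
        right_inv := fun I => rfl }
    exact (Equiv.tsum_eq e (fun I : IJ K (R C : FI K) =>
      ((Ideal.absNorm (I : Ideal (𝓞 K)) : ℕ) : ℂ) ^ (-s))).symm
  rw [Finset.sum_congr rfl fun C _ => hkey C,
    Equiv.sum_comp σ (fun D => ∑' a : {a : {I : Ideal (𝓞 K) // I ≠ ⊥} // F a = D}, f a),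
    ← hval, ← Equiv.tsum_eq (Equiv.sigmaFiberEquiv F) f]
  have hsum' : Summable (fun p : Σ D, {a : {I : Ideal (𝓞 K) // I ≠ ⊥} // F a = D} =>
      f (Equiv.sigmaFiberEquiv F p)) := (Equiv.summable_iff (Equiv.sigmaFiberEquiv F)).2 hsum
  rw [hsum'.tsum_sigma, tsum_fintype]
  rfl

theorem CLS (hDUA : DUA_stmt) (hDZS : DZS_stmt) : CLS_stmt := by
  intro K _ _
  choose I hI using ClassGroup.mk0_surjective (R := 𝓞 K)
  set R : ClassGroup (𝓞 K) → (FI K)ˣ := fun C => FractionalIdeal.mk0 K (I C) with hR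
  have hRC : ∀ C, ClassGroup.mk K (R C) = C := fun C => by
    rw [hR]
    exact (ClassGroup.mk_mk0 K (I C)).trans (hI C)
  refine ⟨fun C => (R C : FI K), fun C => Units.ne_zero _, fun s hs => ⟨?_, ?_⟩⟩
  · refine CLS_sum hDZS K R ?_ s hs
    have : (fun C => ClassGroup.mk K (R C)) = id := funext hRC
    rw [this]
    exact Function.bijective_id
  · have hd : ∀ C, du K (R C : FI K) ≠ 0 := fun C => (hDUA K (R C) (Units.ne_zero _)).1
    have hd1 : du K (1 : FI K) ≠ 0 := (hDUA K 1 one_ne_zero).1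
    refine CLS_sum hDZS K (fun C => Units.mk0 (du K (R C : FI K)) (hd C)) ?_ s hs
    have h1 : ∀ C, Units.mk0 (du K (R C : FI K)) (hd C) = Units.mk0 (du K (1 : FI K)) hd1 * (R C)⁻¹ := by
      intro C
      apply Units.ext
      rw [Units.val_mk0, Units.val_mul, Units.val_mk0, Units.val_inv_eq_inv_val]
      exact (hDUA K (R C) (Units.ne_zero _)).2.2.1
    have h2 : (fun C => ClassGroup.mk K (Units.mk0 (du K (R C : FI K)) (hd C))) =
        fun C => ClassGroup.mk K (Units.mk0 (du K (1 : FI K)) hd1) * C⁻¹ := by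
      funext C
      rw [h1, map_mul, map_inv, hRC]
    rw [h2]
    exact (Equiv.mulLeft (ClassGroup.mk K (Units.mk0 (du K (1 : FI K)) hd1))).bijective.comp
      (Equiv.inv (ClassGroup (𝓞 K))).bijective

end Pool.Agent.RB
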