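import Pool.Agent.helper91.RB.Spec1

set_option autoImplicit false

/-!
# Row rb:FJD: decay and continuity of the averaged theta function
-/

namespace Pool.Agent.RB

open NumberField NumberField.InfinitePlace NumberField.Units NumberField.Units.dirichletUnitTheorem
open MeasureTheory Filter Topology Module
open scoped nonZeroDivisors Real Classical

theorem FJD (hTHD : THD_stmt) (hTAU : TAU_stmt) (hFDX : FDX_stmt) : FJD_stmt := by
  intro K _ _ J hJ
  obtain ⟨hpos, _, _, _, _, hcont⟩ := hTAU K
  obtain ⟨_, hm, hb, _, hfin, _, _⟩ := hFDX K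
  obtain ⟨hdec, hthc⟩ := hTHD K J hJ
  have hcv : ∀ v : InfinitePlace K, Continuous (fun z : logSpace K => tau K z v) :=
    fun v => (continuous_apply v).comp hcont
  -- a lower bound for `tau` on the fundamental domain
  have hκ : ∃ κ : ℝ, 0 < κ ∧ ∀ z ∈ FD K, ∀ v : InfinitePlace K, κ ≤ tau K z v := by
    have h1 : ∀ v : InfinitePlace K, ∃ κ : ℝ, 0 < κ ∧ ∀ z ∈ FD K, κ ≤ tau K z v := by
      intro v
      rcases (closure (FD K)).eq_empty_or_nonempty with he | hne
      · refine ⟨1, one_pos, fun z hz => ?_⟩
        have := subset_closure hz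
        rw [he] at this
        exact absurd this (Set.notMem_empty z)
      · obtain ⟨z0, _, hz0⟩ := hb.isCompact_closure.exists_isMinOn hne (hcv v).continuousOn
        exact ⟨tau K z0 v, hpos z0 v, fun z hz => hz0 (subset_closure hz)⟩
    choose κ hκ1 hκ2 using h1
    have hne : (Finset.univ : Finset (InfinitePlace K)).Nonempty := ⟨w₀, Finset.mem_univ _⟩
    refine ⟨Finset.univ.inf' hne κ, ?_, fun z hz v => ?_⟩
    · rw [Finset.lt_inf'_iff]
      exact fun v _ => hκ1 v
    · exact (Finset.inf'_le κ (Finset.mem_univ v)).trans (hκ2 v z hz)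
  obtain ⟨κ, hκ0, hκ⟩ := hκ
  -- continuity in `z`
  have hcz : ∀ y : ℝ, 0 < y →
      Continuous (fun z : logSpace K => th K (J : Submodule (𝓞 K) K) (fun v => y * tau K z v)) := by
    intro y hy
    refine hthc.comp_continuous (continuous_pi fun v => continuous_const.mul (hcv v)) ?_
    intro z v
    exact mul_pos hy (hpos z v)
  have hint : ∀ y : ℝ, 0 < y → IntegrableOn
      (fun z : logSpace K => th K (J : Submodule (𝓞 K) K) (fun v => y * tau K z v)) (FD K) := by
    intro y hy
    exact ((hcz y hy).continuousOn.integrableOn_compact hb.isCompact_closure).mono_set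
      subset_closure
  constructor
  · obtain ⟨C, c, hc, hC⟩ := hdec κ hκ0
    refine ⟨C * vD K, c * κ, mul_pos hc hκ0, fun y hy => ?_⟩
    have hy0 : 0 < y := by linarith
    have h1 : fJ K (J : Submodule (𝓞 K) K) y - vD K =
        ∫ z in FD K, (th K (J : Submodule (𝓞 K) K) (fun v => y * tau K z v) - 1) := by
      rw [integral_sub (hint y hy0) (integrableOn_const hfin.ne)]
      unfold fJ vD
      simp [Measure.real]
    have h2 : ∀ z ∈ FD K, ‖th K (J : Submodule (𝓞 K) K) (fun v => y * tau K z v) - 1‖ ≤
        C * Real.exp (-c * (κ * y)) := by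
      intro z hz
      have h3 := hC (κ * y) (fun v => y * tau K z v) (by nlinarith) (fun v => by
        have := hκ z hz v
        nlinarith)
      rw [Real.norm_eq_abs, abs_of_nonneg (by linarith [h3.1])]
      exact h3.2
    have h3 := norm_setIntegral_le_of_norm_le_const hfin h2
    rw [h1, ← Real.norm_eq_abs]
    refine h3.trans (le_of_eq ?_)
    unfold vD Measure.real
    rw [show -c * (κ * y) = -(c * κ) * y by ring]
    ring
  · intro y0 hy0
    have hy0' : 0 < y0 := hy0
    have ha : 0 < κ * (y0 / 2) := mul_pos hκ0 (half_pos hy0')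
    obtain ⟨C, c, hc, hC⟩ := hdec (κ * (y0 / 2)) ha
    have h1 : ContinuousOn (fJ K (J : Submodule (𝓞 K) K)) (Set.Ioi (y0 / 2)) := by
      unfold fJ
      refine continuousOn_of_dominated (μ := volume.restrict (FD K))
        (bound := fun _ => 1 + C * Real.exp (-c * (κ * (y0 / 2)))) ?_ ?_ ?_ ?_
      · intro y hy
        have hy' : 0 < y := (half_pos hy0').trans hy
        exact (hcz y hy').aestronglyMeasurable
      · intro y hy
        refine (ae_restrict_mem hm).mono fun z hz => ?_
        have hy' : y0 / 2 < y := hy
        have h3 := hC (κ * (y0 / 2)) (fun v => y * tau K z v) le_rfl (fun v => by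
          have := hκ z hz v
          have h5 : (0 : ℝ) < y0 / 2 := half_pos hy0'
          nlinarith)
        rw [Real.norm_eq_abs, abs_of_nonneg (by linarith [h3.1])]
        linarith [h3.2]
      · exact integrableOn_const hfin.ne
      · refine (ae_restrict_mem hm).mono fun z _ => ?_
        refine hthc.comp (Continuous.continuousOn
          (continuous_pi fun v => continuous_id.mul continuous_const)) ?_
        intro y hy v
        exact mul_pos ((half_pos hy0').trans hy) (hpos z v)
    have h2 : ContinuousAt (fJ K (J : Submodule (𝓞 K) K)) y0 :=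
      h1.continuousAt (Ioi_mem_nhds (half_lt_self hy0'))
    exact h2.continuousWithinAt

end Pool.Agent.RB
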