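import Pool.Agent.helper91.RB.Spec5

set_option autoImplicit false

/-!
# Row rb:RUB: the final theorem
-/

namespace Pool.Agent.RB

open NumberField IsDedekindDomain Module
open scoped nonZeroDivisors Real Classical IsMulCommutative

/-- Bezout: two denominators of a rational number can be replaced by their gcd -/
lemma RUB_bezout {q : ℚ} {a b : ℕ} (h1 : ∃ z : ℤ, (a : ℚ) * q = z) (h2 : ∃ z : ℤ, (b : ℚ) * q = z) :
    ∃ z : ℤ, ((Nat.gcd a b : ℕ) : ℚ) * q = z := by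
  obtain ⟨z1, h1⟩ := h1
  obtain ⟨z2, h2⟩ := h2
  refine ⟨Nat.gcdA a b * z1 + Nat.gcdB a b * z2, ?_⟩
  have h3 : ((Nat.gcd a b : ℕ) : ℚ) = a * (Nat.gcdA a b : ℚ) + b * (Nat.gcdB a b : ℚ) := by
    have := Nat.gcd_eq_gcd_ab a b
    exact_mod_cast this
  rw [h3]
  push_cast
  rw [← h1, ← h2]
  ring

/-- the odd part of `n` is a denominator -/
lemma RUB_odd {q : ℚ} {n e k : ℕ} (he : Odd e) (h1 : ∃ z : ℤ, (n : ℚ) * q = z)
    (h2 : ∃ z : ℤ, (e : ℚ) * 2 ^ k * q = z) :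
    ∃ z : ℤ, ((n / 2 ^ n.factorization 2 : ℕ) : ℚ) * 2 ^ k * q = z := by
  have h3 : ∃ z : ℤ, (n : ℚ) * (2 ^ k * q) = z := by
    obtain ⟨z, hz⟩ := h1
    refine ⟨2 ^ k * z, ?_⟩
    push_cast
    rw [← hz]; ring
  have h4 : ∃ z : ℤ, (e : ℚ) * (2 ^ k * q) = z := by
    obtain ⟨z, hz⟩ := h2
    exact ⟨z, by rw [← hz]; ring⟩
  obtain ⟨z, hz⟩ := RUB_bezout h3 h4
  have hodd : Nat.Coprime (Nat.gcd n e) (2 ^ n.factorization 2) := by
    apply Nat.Coprime.pow_right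
    apply Nat.Coprime.coprime_dvd_left (Nat.gcd_dvd_right n e)
    exact (Nat.coprime_two_right).2 he
  have hdvd : Nat.gcd n e ∣ n / 2 ^ n.factorization 2 := by
    have h5 : n = 2 ^ n.factorization 2 * (n / 2 ^ n.factorization 2) :=
      (Nat.ordProj_mul_ordCompl_eq_self n 2).symm
    have h6 : Nat.gcd n e ∣ 2 ^ n.factorization 2 * (n / 2 ^ n.factorization 2) := by
      rw [← h5]; exact Nat.gcd_dvd_left n e
    exact hodd.dvd_of_dvd_mul_left h6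
  obtain ⟨t, ht⟩ := hdvd
  refine ⟨t * z, ?_⟩
  rw [ht]
  push_cast
  rw [← hz]
  ring

/-- an element of the rational group ring with integral coefficients is integral -/
lemma RUB_zq {G : Type} [Group G] [Finite G] {y : MonoidAlgebra ℚ G}
    (h : ∀ σ : G, ∃ z : ℤ, y.coeff σ = z) : ∃ x : MonoidAlgebra ℤ G, y = zq x := by
  let _ : Fintype G := Fintype.ofFinite G
  choose z hz using h
  refine ⟨MonoidAlgebra.ofCoeff (Finsupp.equivFunOnFinite.symm z), ?_⟩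
  apply MonoidAlgebra.ext
  ext σ
  rw [hz σ]
  unfold zq
  rw [MonoidAlgebra.coeff_mapRingHom]
  simp

theorem RUB (hCHF : CHF_stmt) (hCOE : COE_stmt) (hUNI : UNI_stmt) (hANT : ANT_stmt) : RUB_stmt := by
  intro F H _ _ _ _ _ _ _ _ r hr D m h g₀ hcard hg₀ Lf hLf Θ hΘ W _ _ ι hι o ho u hu
  obtain ⟨N, hN0, hN⟩ := hUNI (H ≃ₐ[F] H) (Additive (Ut F H (D.T : Set (HOS F)) (Set.range D.v))) W ι
    hι.denom (Wm D.c W) r u
  refine ⟨N / 2 ^ N.factorization 2, ?_, ?_⟩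
  · rw [← Nat.coprime_two_right]
    exact (Nat.coprime_ordCompl Nat.prime_two hN0).symm
  intro f hf
  have hc2 : D.c * D.c = 1 := by
    ext x
    show D.c (D.c x) = x
    rw [D.hc, D.hc, IsCMField.complexConj_apply_apply]
  have hc1 : D.c ≠ 1 := by
    intro h1
    apply IsCMField.complexConj_ne_one H
    ext x
    rw [← D.hc, h1]
    rfl
  set y := DT (fun j => (f j).comp (Wm D.c W).subtype) u with hy
  have h1 := hANT (H ≃ₐ[F] H) D.c W r hr f u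
  obtain ⟨e, he, h2⟩ := hCOE (H ≃ₐ[F] H) m h g₀ D.c hcard hg₀.symm hc1 hc2 y
    (if D.S = ∅ then 1 else 0) (finrank ℚ F) h1
    (fun χ hχ => hCHF F H r D m hcard Lf hLf Θ hΘ W ι hι o ho u hu f hf χ hχ)
  obtain ⟨x, hx⟩ := hN f hf
  rw [map_nsmul, ← hy]
  apply RUB_zq
  intro σ
  have h3 : ∃ z : ℤ, (N : ℚ) * y.coeff σ = z := by
    refine ⟨x.coeff σ, ?_⟩
    have h4 : (N • y).coeff σ = (zq x).coeff σ := by rw [hy, hx]
    unfold zq at h4
    rw [MonoidAlgebra.coeff_mapRingHom, MonoidAlgebra.coeff_smul_apply, nsmul_eq_mul] at h4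
    exact h4
  obtain ⟨z, hz⟩ := RUB_odd he h3 (h2 σ)
  refine ⟨z, ?_⟩
  rw [MonoidAlgebra.coeff_smul_apply, nsmul_eq_mul]
  push_cast
  exact hz

end Pool.Agent.RB
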